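import Pool.Agent.Helper41.FX.Brg

/-!
# Project FX, chapter K: composition of the modules
-/

set_option autoImplicit false

namespace Pool.Agent.Helper41.FX

open Polynomial Pool.Agent.Helper72.FX Pool.Agent.Helper72.KRF

/-- the composition of all modules of chapter K -/
theorem tgtK_of
    -- helper72, StK
    (hSNK : StSNK) (hDQ : StDQ) (hRES : StRES) (hEXT : StEXT) (hPMX : StPMX) (hHOM : StHOM)
    (hZT : StZT) (hZP : StZP) (hTRF : StTRF) (hDEV : StDEV) (hPTO : StPTO) (hPCM : StPCM)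
    (hPEA : StPEA) (hPEB : StPEB) (hPEN : StPEN) (hNPX : StNPX) (hNPI : StNPI) (hNPZ : StNPZ)
    (hPRI : StPRI) (hPR0 : StPR0)
    -- helper72, StC1
    (hCB : StCB) (hCC : StCC) (hCI : StCI)
    -- helper21, StF
    (hFTH : Pool.Agent.Helper21.FX.StFTH) (hF1 : Pool.Agent.Helper21.FX.StF1)
    (hD3 : Pool.Agent.Helper21.FX.StD3) (hF2 : Pool.Agent.Helper21.FX.StF2)
    (hF3 : Pool.Agent.Helper21.FX.StF3) (hF4 : Pool.Agent.Helper21.FX.StF4)
    (hQUO : Pool.Agent.Helper21.FX.StQUO) (hRNK : Pool.Agent.Helper21.FX.StRNK)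
    (hQEV : Pool.Agent.Helper21.FX.StQEV) (hNPR : Pool.Agent.Helper21.FX.StNPR)
    (hMD3 : Pool.Agent.Helper21.FX.StMD3) (hPAR : Pool.Agent.Helper21.FX.StPAR)
    -- helper41, StK2
    (hCKQ : StCKQ) (hPMQ : StPMQ) (hPMP : StPMQ → StCKQ → StPMP) (hCKP : StPMX → StCKP)
    (hNZP : StNZP) (hCKN : StCKN) (hC1A : StSNK → StDQ → StRES → StCKQ → StPAR → StC1A)
    (hSTB : StPENC → StPMP → StNZP → StSTB)
    (hST4 : StPENC → StSNK → StDQ → StRES → StEXT → StCKP → StPMX → StST4)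
    (hST5 : StPENC → StSNK → StDQ → StRES → StEXT → StCKP → StCKN → StHOM → StPMX → StPMP → StST5)
    (hST6 : StPENC → StSNK → StDQ → StRES → StEXT → StCKP → StCKQ → StPMX → StPMQ → StPMP → StST6)
    (hC2 : StSTB → StF1 → StC1B → StC2) (hPHI : StPHI) (hC12 : StRES → StPHI → StC2 → StC12)
    (hZA : StTRF → StHOM → StPMX → StZT → StZP → StZA)
    (hZB : StTRF → StHOM → StPMX → StZT → StZP → StZB)
    (hC3A : StSNK → StDQ → StCKQ → StF3 → StF4 → StZA → StC3A)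
    (hC3 : StSNK → StDQ → StCKQ → StF2 → StZB → StC3A → StC3)
    (hC5 : StST4 → StST5 → StPMQ → StC3 → StC12 → StC5)
    (hE12 : StE12) (hC5M : StRES → StE12 → StC5 → StC5M) (hE14 : StE14)
    (hC7 : StRES → StHOM → StPMX → StZT → StZP → StST6 → StE14 → StC5M → StC7)
    (hTK : StSNK → StDQ → StRES → StEXT → StPMX → StNPX → StNPI → StNPZ → StHOM → StZT → StZP →
      StC7 → StTK) : TgtK := by
  have cPENC : StPENC := hPEN hSNK hPMX hDEV hPTO hPCM hPEA hPEB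
  have cPMP : StPMP := hPMP hPMQ hCKQ
  have cCKP : StCKP := hCKP hPMX
  have cZP : ZPc := hZP hHOM hPMX hZT
  have cPAR : PARx := hPAR hPR0 hQUO hRNK hQEV hNPR hMD3
  have cCA : CAx := hC1A hSNK hDQ hRES hCKQ cPAR
  have cCC : CCx := hCC cPENC cCA hCB cZP hSNK hPMX hPMQ hCKQ
  have cC1B : StC1B := brC1B cCC hCI
  have cF1 : StF1 := brF1 hF1 hPRI
  have cF2 : StF2 := brF2 (hF2 hFTH hF1 hPRI)
  have cF3 : StF3 := brF3 (hF3 hD3)
  have cF4 : StF4 := brF4 (hF4 hD3)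
  have cSTB : StSTB := hSTB cPENC cPMP hNZP
  have cC2 : StC2 := hC2 cSTB cF1 cC1B
  have cC12 : StC12 := hC12 hRES hPHI cC2
  have cZA : StZA := hZA hTRF hHOM hPMX hZT hZP
  have cZB : StZB := hZB hTRF hHOM hPMX hZT hZP
  have cC3A : StC3A := hC3A hSNK hDQ hCKQ cF3 cF4 cZA
  have cC3 : StC3 := hC3 hSNK hDQ hCKQ cF2 cZB cC3A
  have cST4 : StST4 := hST4 cPENC hSNK hDQ hRES hEXT cCKP hPMX
  have cST5 : StST5 := hST5 cPENC hSNK hDQ hRES hEXT cCKP hCKN hHOM hPMX cPMP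
  have cST6 : StST6 := hST6 cPENC hSNK hDQ hRES hEXT cCKP hCKQ hPMX hPMQ cPMP
  have cC5 : StC5 := hC5 cST4 cST5 hPMQ cC3 cC12
  have cC5M : StC5M := hC5M hRES hE12 cC5
  have cC7 : StC7 := hC7 hRES hHOM hPMX hZT hZP cST6 hE14 cC5M
  exact hTK hSNK hDQ hRES hEXT hPMX hNPX hNPI hNPZ hHOM hZT hZP cC7

end Pool.Agent.Helper41.FX
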