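import Pool.Agent.Helper41.FX.StK2

/-!
# Project FX, module C5
-/

set_option autoImplicit false

namespace Pool.Agent.Helper41.FX

open Polynomial Pool.Agent.Helper72.FX Pool.Agent.Helper72.KRF

theorem e1_ne : e1 ≠ 0 := by
  intro h
  have h1 := congrArg (MvPolynomial.eval (fun i : Fin 10 => if i = 1 then (1 : ℂ) else 0)) h
  simp [e1, E1, nu, v10] at h1

theorem e1_mem_jP : e1 ∈ jP := by
  have h3 : v10 3 ∈ jP := Ideal.subset_span (by simp)
  have h5 : v10 5 ∈ jP := Ideal.subset_span (by simp)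
  have h0 : v10 0 ∈ jP := Ideal.subset_span (by simp)
  have h1 : v10 1 ∈ jP := Ideal.subset_span (by simp)
  have h : e1 = v10 1 * (2 + v10 2 * v10 1) - v10 0 * v10 0 - v10 3 * v10 4 - v10 5 * v10 6 := by
    simp only [e1, E1, nu]
    ring
  rw [h]
  exact Ideal.sub_mem _ (Ideal.sub_mem _ (Ideal.sub_mem _ (Ideal.mul_mem_right _ _ h1)
    (Ideal.mul_mem_right _ _ h0)) (Ideal.mul_mem_right _ _ h3)) (Ideal.mul_mem_right _ _ h5)

theorem e2_mem_jP : e2 ∈ jP := Ideal.subset_span (by simp)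

theorem ss_mem_jP : ss ∈ jP :=
  Ideal.sub_mem _ (Ideal.subset_span (by simp)) (Ideal.subset_span (by simp))

theorem I_le_jP : Ideal.span {e1, e2, ss} ≤ jP := by
  rw [Ideal.span_le]
  rintro x (rfl | rfl | rfl)
  · exact e1_mem_jP
  · exact e2_mem_jP
  · exact ss_mem_jP

theorem pel_ne : (pel (C e1) (-pel e2 ss) : P0[X][X]) ≠ 0 := by
  intro h
  have h1 := congrArg (fun p : P0[X][X] => (p.coeff 1).coeff 0) h
  simp [pel, coeff_C] at h1
  exact e1_ne h1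

theorem hC5 : StST4 → StST5 → StPMQ → StC3 → StC12 → StC5 := by
  intro hST4 hST5 hPMQ hC3 hC12
  obtain ⟨χ, h0, h1, hD⟩ := hC12
  obtain ⟨χ4, h4a, h4b⟩ := hST4 P0 e1 e2 ss (ZMod 2) χ (hC3 χ h0 hD)
  obtain ⟨χ5, h5a, h5b⟩ := hST5 P0 e1 e2 ss (ZMod 2) χ4 h4b
    (fun r hr => (mul_eq_zero.1 hr).resolve_left pel_ne)
  refine ⟨χ5, h5b, ?_⟩
  have hup : pid (Ideal.span {e1}) e2 ss ≤ upC jP := by
    rw [pid, sup_le_iff, Ideal.map_span, Ideal.span_le, Ideal.span_le]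
    constructor
    · rintro x ⟨y, hy, rfl⟩
      rw [Set.mem_singleton_iff.1 hy]
      exact Ideal.mem_map_of_mem _ e1_mem_jP
    · rintro x hx
      rw [Set.mem_singleton_iff.1 hx]
      exact Ideal.sub_mem _ (Ideal.mul_mem_right _ _ (Ideal.mem_map_of_mem _ e2_mem_jP))
        (Ideal.mem_map_of_mem _ ss_mem_jP)
  -- first level
  obtain ⟨q1⟩ := hPMQ P0 jP
  have hk1 : kil (upC jP) (P0[X] ⧸ (upC jP : Ideal P0[X])) := kil_quot _
  have hk2 : kil (pid (Ideal.span {e1}) e2 ss) (P0[X] ⧸ (upC jP : Ideal P0[X])) :=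
    kil_mono hup hk1
  have v1 : χ4.f (P0[X] ⧸ (upC jP : Ideal P0[X])) = 1 := by
    rw [← h1, ← h4a (P0 ⧸ jP) inferInstance (kil_mono I_le_jP (kil_quot jP))]
    exact (χ4.equiv (gd_kil _) q1 inferInstance hk2).symm
  -- second level
  obtain ⟨q2⟩ := hPMQ P0[X] (upC jP)
  have hup2 : pid ⊥ (C e1) (-pel e2 ss) ≤ jPX := by
    rw [pid, sup_le_iff, Ideal.map_bot, Ideal.span_le]
    refine ⟨bot_le, ?_⟩
    rintro x hx
    rw [Set.mem_singleton_iff.1 hx]
    have hp : pel e2 ss ∈ upC jP := hup (Submodule.mem_sup_right (Ideal.mem_span_singleton_self _))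
    have he : (C e1 : P0[X]) ∈ upC jP := Ideal.mem_map_of_mem _ e1_mem_jP
    exact Ideal.sub_mem _ (Ideal.mul_mem_right _ _ (Ideal.mem_map_of_mem _ he))
      (Ideal.mem_map_of_mem _ (Ideal.neg_mem_iff _ |>.2 hp))
  rw [← v1, ← h5a (P0[X] ⧸ (upC jP : Ideal P0[X])) inferInstance hk2]
  exact (χ5.equiv (gd_kil _) q2 inferInstance (kil_mono hup2 (kil_quot _))).symm

end Pool.Agent.Helper41.FX
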