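import Pool.Agent.Helper41.FX.StK2

set_option autoImplicit false

namespace Pool.Agent.Helper41.FX

open Polynomial Pool.Agent.Helper72.FX Pool.Agent.Helper72.KRF

noncomputable section

/-- `R[X][X] → ℂ[U, V, ...]` -/
def f14 : (MvPolynomial (Fin 12) ℂ)[X][X] →+* MvPolynomial (Fin 2 ⊕ Fin 12) ℂ :=
  eval₂RingHom (eval₂RingHom (MvPolynomial.rename (R := ℂ) (Sum.inr : Fin 12 → Fin 2 ⊕ Fin 12)).toRingHom
    (MvPolynomial.X (Sum.inl 0))) (MvPolynomial.X (Sum.inl 1))

/-- images of the variables -/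
def w14 : Fin 2 ⊕ Fin 12 → (MvPolynomial (Fin 12) ℂ)[X][X] :=
  Sum.elim ![C X, X] (fun j => C (C (MvPolynomial.X j)))

/-- the inverse -/
def g14 : MvPolynomial (Fin 2 ⊕ Fin 12) ℂ →+* (MvPolynomial (Fin 12) ℂ)[X][X] :=
  (MvPolynomial.aeval w14 : MvPolynomial (Fin 2 ⊕ Fin 12) ℂ →ₐ[ℂ] _).toRingHom

theorem f14_CC (p : MvPolynomial (Fin 12) ℂ) :
    f14 (C (C p)) = MvPolynomial.rename Sum.inr p := by
  simp only [f14, coe_eval₂RingHom, eval₂_C]
  rfl

theorem f14_CX : f14 (C X) = MvPolynomial.X (Sum.inl 0) := by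
  simp only [f14, coe_eval₂RingHom, eval₂_C, eval₂_X]

theorem f14_X : f14 X = MvPolynomial.X (Sum.inl 1) := by
  simp only [f14, coe_eval₂RingHom, eval₂_X]

theorem g14_X (i : Fin 2 ⊕ Fin 12) : g14 (MvPolynomial.X i) = w14 i :=
  MvPolynomial.aeval_X w14 i

theorem g14_C (z : ℂ) : g14 (MvPolynomial.C z) = C (C (MvPolynomial.C z)) :=
  MvPolynomial.aeval_C w14 z

theorem f14_g14 : f14.comp g14 = RingHom.id _ := by
  refine MvPolynomial.ringHom_ext (fun z => ?_) (fun i => ?_)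
  · rw [RingHom.comp_apply, g14_C, f14_CC, MvPolynomial.rename_C]
    rfl
  · rw [RingHom.comp_apply, g14_X, RingHom.id_apply]
    rcases i with i | i
    · fin_cases i
      · exact f14_CX
      · exact f14_X
    · change f14 (C (C (MvPolynomial.X i))) = _
      rw [f14_CC, MvPolynomial.rename_X]

theorem g14_f14 : g14.comp f14 = RingHom.id _ := by
  refine Polynomial.ringHom_ext' (Polynomial.ringHom_ext' (MvPolynomial.ringHom_ext (fun z => ?_)
    (fun i => ?_)) ?_) ?_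
  · change g14 (f14 (C (C (MvPolynomial.C z)))) = C (C (MvPolynomial.C z))
    rw [f14_CC, MvPolynomial.rename_C, g14_C]
  · change g14 (f14 (C (C (MvPolynomial.X i)))) = C (C (MvPolynomial.X i))
    rw [f14_CC, MvPolynomial.rename_X, g14_X]
    rfl
  · change g14 (f14 (C X)) = C X
    rw [f14_CX, g14_X]
    rfl
  · change g14 (f14 X) = X
    rw [f14_X, g14_X]
    rfl

theorem hE14 : StE14 := by
  intro F
  refine ⟨RingEquiv.ofRingHom f14 g14 f14_g14 g14_f14, ?_⟩
  change f14 (C X * X - C (C F)) = _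
  have h1 : f14 (C X * X - C (C F)) = f14 (C X) * f14 X - f14 (C (C F)) := by
    have h2 := f14.map_sub (C X * X) (C (C F))
    rw [f14.map_mul] at h2
    exact h2
  rw [h1, f14_CC, f14_CX, f14_X, UVP]

end

end Pool.Agent.Helper41.FX
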