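import Pool.Agent.Helper63.FX.M_PEB

/-!
# Project FX, module PEA: independence of the lattice
-/

set_option autoImplicit false

namespace Pool.Agent.Helper41.FX

open Polynomial Pool.Agent.Helper72.FX Pool.Agent.Helper63.FX

section

variable {B : Type} [CommRing B]

/-- in a module killed by the pencil, `E X q = s q` -/
theorem EX_smul {I : Ideal B} {E s : B} {Q : Type} [AddCommGroup Q] [Module B Q]
    [Module B[X] Q] [IsScalarTower B B[X] Q] (h : kil (pid I E s) Q) (q : Q) :
    E • ((X : B[X]) • q) = s • q := by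
  have h1 := h (pel E s) (Submodule.mem_sup_right (Ideal.mem_span_singleton_self _)) q
  rw [pel, sub_smul, sub_eq_zero, mul_smul, C_smul_eq, C_smul_eq] at h1
  exact h1

theorem EX_pow_smul {I : Ideal B} {E s : B} {Q : Type} [AddCommGroup Q] [Module B Q]
    [Module B[X] Q] [IsScalarTower B B[X] Q] (h : kil (pid I E s) Q) (n : ℕ) (q : Q) :
    E ^ n • ((X ^ n : B[X]) • q) = s ^ n • q := by
  induction n with
  | zero => simp
  | succ n ih =>
    have h1 : (X ^ (n + 1) : B[X]) • q = (X : B[X]) • ((X ^ n : B[X]) • q) := by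
      rw [smul_smul, ← pow_succ']
    rw [h1, pow_succ E, mul_smul, EX_smul h, smul_comm, ih, smul_smul, ← pow_succ']

theorem pow_mem_lat {I : Ideal B} {E s : B} {Q : Type} [AddCommGroup Q] [Module B Q]
    [Module B[X] Q] [IsScalarTower B B[X] Q] (h : kil (pid I E s) Q) (M : Submodule B Q)
    (g : PolynomialModule B M) : ∃ k : ℕ, E ^ k • Phi M g ∈ M := by
  induction g using PolynomialModule.induction_linear with
  | zero => exact ⟨0, by simp⟩
  | add a b ha hb =>
    obtain ⟨k, hk⟩ := ha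
    obtain ⟨l, hl⟩ := hb
    refine ⟨k + l, ?_⟩
    rw [map_add, smul_add]
    apply M.add_mem
    · rw [pow_add, mul_comm, mul_smul]
      exact M.smul_mem _ hk
    · rw [pow_add, mul_smul]
      exact M.smul_mem _ hl
  | single n m =>
    refine ⟨n, ?_⟩
    unfold Phi
    rw [plift_single, EX_pow_smul h]
    exact M.smul_mem _ m.2

/-- one power for a finitely generated module -/
theorem one_pow {E : B} {N : Type} [AddCommGroup N] [Module B N] (hf : Module.Finite B N)
    (h : ∀ y : N, ∃ k : ℕ, E ^ k • y = 0) : ∃ k : ℕ, ∀ y : N, E ^ k • y = 0 := by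
  obtain ⟨S, hS⟩ := hf.fg_top
  choose f hf' using h
  refine ⟨S.sup f, fun y => ?_⟩
  have hy : y ∈ Submodule.span B (S : Set N) := by
    rw [hS]
    trivial
  induction hy using Submodule.span_induction with
  | mem x hx =>
    obtain ⟨c, hc⟩ := Nat.exists_eq_add_of_le (Finset.le_sup (f := f) hx)
    rw [hc, pow_add, mul_comm, mul_smul, hf', smul_zero]
  | zero => simp
  | add a b _ _ ha hb => rw [smul_add, ha, hb, add_zero]
  | smul a x _ hx => rw [smul_comm, hx, smul_zero]

end

theorem hPEA : StPEA := by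
  intro hSNK hPMX hPTO B _ _ I E s Λ _ χB τ hCmp Q _ _ _ _ M M' hk hM hM' hle
  let iM : M →ₗ[B] M' := Submodule.inclusion hle
  let SM : Submodule B M' := M.comap M'.subtype
  let pM : M' →ₗ[B] (M' ⧸ SM) := SM.mkQ
  have eiM : ∀ m : M, (iM m : Q) = m := fun m => rfl
  have hiM : Function.Injective iM := Submodule.inclusion_injective hle
  have hexM : Function.Exact iM pM := by
    intro y
    constructor
    · intro hy
      have h0 : y ∈ SM := (Submodule.Quotient.mk_eq_zero SM).1 hy
      exact ⟨⟨(y : Q), h0⟩, Subtype.ext rfl⟩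
    · rintro ⟨x, rfl⟩
      exact (Submodule.Quotient.mk_eq_zero SM).2 x.2
  have hpM : Function.Surjective pM := Submodule.mkQ_surjective SM
  have c1 : ∀ g, Phi M' (pmap iM g) = Phi M g := fun g =>
    Phi_pmap M M' LinearMap.id iM (fun m => rfl) g
  have fM : Module.Finite B M := Module.Finite.iff_fg.2 hM.1
  have fM' : Module.Finite B M' := Module.Finite.iff_fg.2 hM'.1
  have fN : Module.Finite B (M' ⧸ SM) := Module.Finite.of_surjective pM hpM
  have kM : kil I M := kil_I_of_pid hk M
  have kM' : kil I M' := kil_I_of_pid hk M'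
  have kN : kpw I E (M' ⧸ SM) := by
    refine ⟨(gd_kil I).surj M' _ pM hpM kM', one_pow fN fun y => ?_⟩
    obtain ⟨m, rfl⟩ := hpM y
    obtain ⟨g, hg⟩ := hM.2 (m : Q)
    obtain ⟨k, hk'⟩ := pow_mem_lat hk M g
    refine ⟨k, ?_⟩
    rw [← map_smul]
    refine (Submodule.Quotient.mk_eq_zero SM).2 ?_
    change E ^ k • (m : Q) ∈ M
    rw [← hg]
    exact hk'
  have hχ : χB.f M' = χB.f M + χB.f (M' ⧸ SM) :=
    χB.exact' M M' (M' ⧸ SM) iM pM fM' kM' hiM hexM hpM
  have hX := hPMX B M M' (M' ⧸ SM) iM pM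
  have hX' := hPMX B M' (M' ⧸ SM) (M' ⧸ SM) pM LinearMap.id
  have xi : Function.Injective (pmap iM) := hX.1 hiM
  have xe : Function.Exact (pmap iM) (pmap pM) := hX.2.2.1 hexM
  have xp : Function.Surjective (pmap pM) := hX'.2.1 hpM
  have h1 : ∀ x ∈ LinearMap.ker (Phi M), pmap iM x ∈ LinearMap.ker (Phi M') := by
    intro x hx
    rw [LinearMap.mem_ker] at hx ⊢
    rw [c1, hx]
  have r1 : Function.Injective ((pmap iM).restrict h1) := by
    intro x y hxy
    apply Subtype.ext
    apply xi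
    have := congrArg Subtype.val hxy
    simpa using this
  have r2 : Function.Exact ((pmap iM).restrict h1)
      ((pmap pM) ∘ₗ (LinearMap.ker (Phi M')).subtype) := by
    intro y
    constructor
    · intro hy
      obtain ⟨x, hx⟩ := (xe (y : PolynomialModule B M')).1 hy
      have hxk : x ∈ LinearMap.ker (Phi M) := by
        rw [LinearMap.mem_ker, ← c1, hx]
        exact y.2
      exact ⟨⟨x, hxk⟩, Subtype.ext hx⟩
    · rintro ⟨x, rfl⟩
      exact (xe _).2 ⟨(x : PolynomialModule B M), rfl⟩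
  have r3 : Function.Surjective ((pmap pM) ∘ₗ (LinearMap.ker (Phi M')).subtype) := by
    intro n
    obtain ⟨g, hg⟩ := xp n
    obtain ⟨h, hh⟩ := hM.2 (Phi M' g)
    have hkk : g - pmap iM h ∈ LinearMap.ker (Phi M') := by
      rw [LinearMap.mem_ker, map_sub, c1, hh, sub_self]
    refine ⟨⟨g - pmap iM h, hkk⟩, ?_⟩
    have h0 : pmap pM (pmap iM h) = 0 := (xe _).2 ⟨h, rfl⟩
    change pmap pM (g - pmap iM h) = n
    rw [map_sub, h0, sub_zero, hg]
  obtain ⟨t1, t2, t3⟩ := hPTO hPMX B I E s
  have key := hSNK B[X] (kpw (pid I E s) (C E)) (gd_kpw _ _) Λ τ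
    (PolynomialModule B M) (PolynomialModule B M') (PolynomialModule B (M' ⧸ SM))
    (LinearMap.ker (Phi M)) (LinearMap.ker (Phi M')) (PolynomialModule B (M' ⧸ SM))
    (pmap iM) (pmap pM) ((pmap iM).restrict h1) ((pmap pM) ∘ₗ (LinearMap.ker (Phi M')).subtype)
    (gcol hk M) (gcol hk M') (LinearMap.lsmul B[X] (PolynomialModule B (M' ⧸ SM)) (pel E s))
    xi xe xp r1 r2 r3
    (by
      apply LinearMap.ext
      intro g
      apply Subtype.ext
      change pel E s • pmap iM g = pmap iM (pel E s • g)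
      rw [map_smul])
    (by
      apply LinearMap.ext
      intro g
      change pel E s • pmap pM g = pmap pM (pel E s • g)
      rw [map_smul])
    (fin_sub_congr (gcol_ker hk M') (t1 M' fM' kM').1)
    (cl_sub_congr _ (gcol_ker hk M') (t1 M' fM' kM').2)
    (t1 (M' ⧸ SM) fN kN.1).1
    (t1 (M' ⧸ SM) fN kN.1).2
    (fin_quot_congr (gcol_range hk M) (t3 Q M hk hM).1)
    (cl_quot_congr _ (gcol_range hk M) (t3 Q M hk hM).2)
    (fin_quot_congr (gcol_range hk M') (t3 Q M' hk hM').1)
    (cl_quot_congr _ (gcol_range hk M') (t3 Q M' hk hM').2)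
  rw [af_quot_congr τ (gcol_range hk M'), af_quot_congr τ (gcol_range hk M),
    af_sub_congr τ (gcol_ker hk M'), af_sub_congr τ (gcol_ker hk M),
    ← hCmp (M' ⧸ SM) fN kN] at key
  have key' : τ.f (KM E s M') - τ.f (Kn (pel E s) (PolynomialModule B M')) =
    (τ.f (KM E s M) - τ.f (Kn (pel E s) (PolynomialModule B M))) + χB.f (M' ⧸ SM) := key
  change χB.f M - τ.f (KM E s M) + τ.f (Kn (pel E s) (PolynomialModule B M)) =
    χB.f M' - τ.f (KM E s M') + τ.f (Kn (pel E s) (PolynomialModule B M'))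
  have h3 : χB.f M' - τ.f (KM E s M') + τ.f (Kn (pel E s) (PolynomialModule B M')) =
    χB.f M' - (τ.f (KM E s M') - τ.f (Kn (pel E s) (PolynomialModule B M'))) := by abel
  rw [h3, key', hχ]
  abel

end Pool.Agent.Helper41.FX
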