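import Pool.Agent.Helper72.FX.StK

set_option autoImplicit false

namespace Pool.Agent.Helper41.FX

open Polynomial Pool.Agent.Helper72.FX

noncomputable section

variable {B : Type} [CommRing B] [IsDomain B]

/-- evaluation at `s / E` -/
def evP (E s : B) : B[X] →+* FractionRing B :=
  eval₂RingHom (algebraMap B (FractionRing B)) (algebraMap B (FractionRing B) s / algebraMap B (FractionRing B) E)

theorem evP_C (E s b : B) : evP E s (C b) = algebraMap B (FractionRing B) b := by
  simp [evP]

theorem evP_pel {E s : B} (hE : E ≠ 0) : evP E s (pel E s) = 0 := by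
  have h : algebraMap B (FractionRing B) E ≠ 0 := by
    simpa using hE
  simp only [evP, pel, coe_eval₂RingHom, eval₂_sub, eval₂_mul, eval₂_C, eval₂_X]
  field_simp
  ring

theorem evP_dvd {E s : B} (hE : Prime E) (hs : ¬ E ∣ s) (f : B[X]) (hf : evP E s f = 0) :
    E ∣ f.leadingCoeff := by
  have h : algebraMap B (FractionRing B) E ≠ 0 := by
    simpa using hE.ne_zero
  have h1 : (∑ i ∈ Finset.range (f.natDegree + 1), f.coeff i * s ^ i * E ^ (f.natDegree - i)) = 0 := by
    apply IsFractionRing.injective B (FractionRing B)
    rw [map_sum, map_zero]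
    have h2 : evP E s f * algebraMap B (FractionRing B) E ^ f.natDegree = 0 := by rw [hf, zero_mul]
    rw [← h2]
    simp only [evP, coe_eval₂RingHom]
    rw [eval₂_eq_sum_range, Finset.sum_mul]
    refine Finset.sum_congr rfl fun i hi => ?_
    have hi' : i ≤ f.natDegree := Nat.lt_succ_iff.1 (Finset.mem_range.1 hi)
    simp only [map_mul, map_pow]
    rw [div_pow, show algebraMap B (FractionRing B) E ^ f.natDegree =
      algebraMap B (FractionRing B) E ^ i * algebraMap B (FractionRing B) E ^ (f.natDegree - i) by
        rw [← pow_add, Nat.add_sub_cancel' hi']]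
    field_simp
  rw [Finset.sum_range_succ, Nat.sub_self, pow_zero, mul_one] at h1
  have h3 : E ∣ ∑ i ∈ Finset.range f.natDegree, f.coeff i * s ^ i * E ^ (f.natDegree - i) := by
    refine Finset.dvd_sum fun i hi => ?_
    have hi' : i < f.natDegree := Finset.mem_range.1 hi
    exact Dvd.dvd.mul_left (dvd_pow_self E (by omega)) _
  have h4 : E ∣ f.coeff f.natDegree * s ^ f.natDegree := by
    rw [add_comm] at h1
    rw [eq_neg_of_add_eq_zero_left h1]
    exact h3.neg_right
  rcases hE.dvd_or_dvd h4 with h5 | h5
  · exact h5
  · exact absurd (hE.dvd_of_dvd_pow h5) hs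

theorem evP_ker {E s : B} (hE : Prime E) (hs : ¬ E ∣ s) : ∀ (n : ℕ) (f : B[X]), f.natDegree < n →
    evP E s f = 0 → f ∈ Ideal.span {pel E s} := by
  intro n
  induction n with
  | zero => intro f hf; omega
  | succ n ih =>
    intro f hf h0
    rcases Nat.eq_zero_or_pos f.natDegree with hd | hd
    · rw [eq_C_of_natDegree_eq_zero hd, evP_C] at h0
      have h1 : f.coeff 0 = 0 := IsFractionRing.injective B (FractionRing B) (by rw [h0, map_zero])
      rw [eq_C_of_natDegree_eq_zero hd, h1, C_0]
      exact zero_mem _
    · obtain ⟨g, hg⟩ := evP_dvd hE hs f h0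
      have hpm : pel E s * (C g * X ^ (f.natDegree - 1)) ∈ Ideal.span {pel E s} :=
        Ideal.mul_mem_right _ _ (Ideal.mem_span_singleton_self _)
      have hmem : f - pel E s * (C g * X ^ (f.natDegree - 1)) ∈ Ideal.span {pel E s} := by
        apply ih
        · have hfe : pel E s * (C g * X ^ (f.natDegree - 1)) =
              C f.leadingCoeff * X ^ f.natDegree - C (s * g) * X ^ (f.natDegree - 1) := by
            rw [hg, pel, C_mul, C_mul]
            obtain ⟨d, hd'⟩ : ∃ d, f.natDegree = d + 1 := ⟨f.natDegree - 1, by omega⟩
            rw [hd', Nat.add_sub_cancel]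
            ring
          rw [hfe]
          have h2 : f - (C f.leadingCoeff * X ^ f.natDegree - C (s * g) * X ^ (f.natDegree - 1)) =
              f.eraseLead + C (s * g) * X ^ (f.natDegree - 1) := by
            have h3 := f.eraseLead_add_C_mul_X_pow
            linear_combination -h3
          rw [h2]
          refine lt_of_le_of_lt (natDegree_add_le _ _) (max_lt ?_ ?_)
          · have := f.eraseLead_natDegree_le
            omega
          · have := natDegree_C_mul_X_pow_le (s * g) (f.natDegree - 1)
            omega
        · rw [map_sub, map_mul, evP_pel hE.ne_zero, h0]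
          ring
      have h5 := Ideal.add_mem _ hmem hpm
      rwa [sub_add_cancel] at h5

theorem hPRI : StPRI := by
  intro B _ _ E s hE hs
  have hk : RingHom.ker (evP E s) = Ideal.span {pel E s} := by
    apply le_antisymm
    · intro f hf
      exact evP_ker hE hs (f.natDegree + 1) f (Nat.lt_succ_self _) hf
    · rw [Ideal.span_singleton_le_iff_mem]
      exact evP_pel hE.ne_zero
  rw [← hk]
  refine ⟨RingHom.ker_isPrime _, fun b hb => ?_⟩
  have h1 : algebraMap B (FractionRing B) b = 0 := by
    rw [← evP_C E s b]
    exact hb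
  exact IsFractionRing.injective B (FractionRing B) (by rw [h1, map_zero])

end

end Pool.Agent.Helper41.FX
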