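import Pool.Agent.Helper41.FX.AsmK0
import Pool.Agent.Helper73.FX.M_SNK
import Pool.Agent.Helper79.FX.M_DQ
import Pool.Agent.Helper36.FX.M_RES
import Pool.Agent.Helper15.FX.M_EXT
import Pool.Agent.Helper85.FX.M_PMX
import Pool.Agent.Helper81.FX.M_HOM
import Pool.Agent.Helper70.FX.M_ZT
import Pool.Agent.Helper38.FX.M_ZP
import Pool.Agent.Helper7.FX.M_TRF
import Pool.Agent.Helper40.FX.M_DEV
import Pool.Agent.Helper3.FX.M_PTO
import Pool.Agent.Helper55.FX.M_PCM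
import Pool.Agent.Helper41.FX.M_PEA
import Pool.Agent.Helper63.FX.M_PEB
import Pool.Agent.Helper95.FX.M_PEN
import Pool.Agent.Helper53.FX.M_NPX
import Pool.Agent.Helper29.FX.M_NPI
import Pool.Agent.Helper10.FX.M_NPZ
import Pool.Agent.Helper41.FX.M_PRI
import Pool.Agent.Helper14.FX.M_CB
import Pool.Agent.Helper10.FX.M_CC
import Pool.Agent.Helper22.FX.M_CI
import Pool.Agent.Helper49.FX.M_FTH
import Pool.Agent.Helper49.FX.M_F1
import Pool.Agent.Helper49.FX.M_D3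
import Pool.Agent.Helper71.FX.M_F2
import Pool.Agent.Helper87.FX.M_F3
import Pool.Agent.Helper42.FX.M_F4
import Pool.Agent.Helper17.FX.M_QUO
import Pool.Agent.Helper61.FX.M_RNK
import Pool.Agent.Helper5.FX.M_QEV
import Pool.Agent.Helper10.FX.M_NPR
import Pool.Agent.Helper88.FX.M_MD3
import Pool.Agent.Helper21.FX.M_PAR
import Pool.Agent.Helper40.FX.M_CKQ
import Pool.Agent.Helper20.FX.M_PMQ
import Pool.Agent.Helper4.FX.M_PMP
import Pool.Agent.Helper34.FX.M_CKP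
import Pool.Agent.Helper45.FX.M_NZP
import Pool.Agent.Helper42.FX.M_CKN
import Pool.Agent.Helper47.FX.M_C1A
import Pool.Agent.Helper27.FX.M_STB
import Pool.Agent.Helper20.FX.M_ST4
import Pool.Agent.Helper71.FX.M_ST5
import Pool.Agent.Helper68.FX.M_ST6
import Pool.Agent.Helper16.FX.M_C2
import Pool.Agent.Helper21.FX.M_PHI
import Pool.Agent.Helper99.FX.M_C12
import Pool.Agent.Helper12.FX.M_ZA
import Pool.Agent.Helper12.FX.M_ZB
import Pool.Agent.Helper1.FX.M_C3A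
import Pool.Agent.Helper34.FX.M_C3
import Pool.Agent.Helper41.FX.M_C5
import Pool.Agent.Helper18.FX.M_E12
import Pool.Agent.Helper40.FX.M_C5M
import Pool.Agent.Helper41.FX.M_E14
import Pool.Agent.Helper17.FX.M_C7
import Pool.Agent.Helper87.FX.M_TK

/-!
# Project FX (MP_3bffab, S00143): chapter K from the module PR0 (parity of the rank)
-/

set_option autoImplicit false

namespace Pool.Agent.Helper41.FX

/-- chapter K from `StPR0` -/
theorem tgtK_of_PR0 (hPR0 : Pool.Agent.Helper72.FX.StPR0) : Pool.Agent.Helper72.FX.TgtK :=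
  tgtK_of Pool.Agent.Helper73.FX.hSNK Pool.Agent.Helper79.FX.hDQ Pool.Agent.Helper36.FX.hRES
    Pool.Agent.Helper15.FX.hEXT Pool.Agent.Helper85.FX.hPMX Pool.Agent.Helper81.FX.hHOM
    Pool.Agent.Helper70.FX.hZT Pool.Agent.Helper38.FX.hZP Pool.Agent.Helper7.FX.hTRF
    Pool.Agent.Helper40.FX.hDEV Pool.Agent.Helper3.FX.hPTO Pool.Agent.Helper55.FX.hPCM
    Pool.Agent.Helper41.FX.hPEA Pool.Agent.Helper63.FX.hPEB Pool.Agent.Helper95.FX.hPEN
    Pool.Agent.Helper53.FX.hNPX Pool.Agent.Helper29.FX.hNPI Pool.Agent.Helper10.FX.hNPZ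
    Pool.Agent.Helper41.FX.hPRI hPR0 Pool.Agent.Helper14.FX.hCB
    Pool.Agent.Helper10.FX.hCC Pool.Agent.Helper22.FX.hCI Pool.Agent.Helper49.FX.hFTH
    Pool.Agent.Helper49.FX.hF1 Pool.Agent.Helper49.FX.hD3 Pool.Agent.Helper71.FX.hF2
    Pool.Agent.Helper87.FX.hF3 Pool.Agent.Helper42.FX.hF4 Pool.Agent.Helper17.FX.hQUO
    Pool.Agent.Helper61.FX.hRNK Pool.Agent.Helper5.FX.hQEV Pool.Agent.Helper10.FX.hNPR
    Pool.Agent.Helper88.FX.hMD3 Pool.Agent.Helper21.FX.hPAR Pool.Agent.Helper40.FX.hCKQ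
    Pool.Agent.Helper20.FX.hPMQ Pool.Agent.Helper4.FX.hPMP Pool.Agent.Helper34.FX.hCKP
    Pool.Agent.Helper45.FX.hNZP Pool.Agent.Helper42.FX.hCKN Pool.Agent.Helper47.FX.hC1A
    Pool.Agent.Helper27.FX.hSTB Pool.Agent.Helper20.FX.hST4 Pool.Agent.Helper71.FX.hST5
    Pool.Agent.Helper68.FX.hST6 Pool.Agent.Helper16.FX.hC2 Pool.Agent.Helper21.FX.hPHI
    Pool.Agent.Helper99.FX.hC12 Pool.Agent.Helper12.FX.hZA Pool.Agent.Helper12.FX.hZB
    Pool.Agent.Helper1.FX.hC3A Pool.Agent.Helper34.FX.hC3 Pool.Agent.Helper41.FX.hC5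
    Pool.Agent.Helper18.FX.hE12 Pool.Agent.Helper40.FX.hC5M Pool.Agent.Helper41.FX.hE14
    Pool.Agent.Helper17.FX.hC7 Pool.Agent.Helper87.FX.hTK

end Pool.Agent.Helper41.FX
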