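import Pool.Agent.Helper41.FX.StK2
import Pool.Agent.Helper21.FX.StF
import Pool.Agent.Helper72.FX.StC1

/-!
# Project FX, chapter K: bridges between the statements of helper21, helper72 and helper41
-/

set_option autoImplicit false

namespace Pool.Agent.Helper41.FX

open Polynomial Pool.Agent.Helper72.FX Pool.Agent.Helper72.KRF

theorem brPMQ (h : Pool.Agent.Helper72.FX.StPMQ) : StPMQ := h

theorem brCKQ (h : Pool.Agent.Helper72.FX.StCKQ) : StCKQ := h

theorem brCKP (h : StPMC) (h1 : StPMX) : StCKP := fun A _ s N _ _ => h h1 A N s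

theorem brPENC (h : PENc) : StPENC := h

theorem brC1B (h : CCx) (h1 : StCI) : StC1B := by
  obtain ⟨χ, h2, h3, h4⟩ := h
  exact ⟨χ, h3, h4, h1 χ h2⟩

theorem brF1 (h : Pool.Agent.Helper21.FX.StF1) (h1 : StPRI) : StF1 := ⟨(h h1).1, (h h1).2.2⟩

theorem brF2 (h : ∀ y : Pool.Agent.Helper21.FX.P0, (Pool.Agent.Helper21.FX.s0 - Pool.Agent.Helper21.FX.r0) * y ∈
    Ideal.span {Pool.Agent.Helper21.FX.E10, Pool.Agent.Helper21.FX.E20} →
    y ∈ Ideal.span {Pool.Agent.Helper21.FX.E10, Pool.Agent.Helper21.FX.E20}) : StF2 := h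

theorem brF3 (h : ∀ y : Pool.Agent.Helper21.FX.P0, Pool.Agent.Helper21.FX.s0 * y ∈
    Ideal.span {Pool.Agent.Helper21.FX.E10, Pool.Agent.Helper21.FX.E20,
      Pool.Agent.Helper21.FX.s0 - Pool.Agent.Helper21.FX.r0} →
    y ∈ Ideal.span {Pool.Agent.Helper21.FX.E10, Pool.Agent.Helper21.FX.E20,
      Pool.Agent.Helper21.FX.s0 - Pool.Agent.Helper21.FX.r0}) : StF3 := h

theorem brF4 (h : ∀ y : Pool.Agent.Helper21.FX.P0, Pool.Agent.Helper21.FX.s0 * y ∈
    Ideal.span {Pool.Agent.Helper21.FX.E10, Pool.Agent.Helper21.FX.E20, Pool.Agent.Helper21.FX.r0} →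
    y ∈ Ideal.span {Pool.Agent.Helper21.FX.E10, Pool.Agent.Helper21.FX.E20,
      Pool.Agent.Helper21.FX.r0}) : StF4 := h

theorem brPAR (h : PARx) : StPAR := h

theorem brF1x (h : Pool.Agent.Helper21.FX.StF1) (h1 : StPRI) : F1x := ⟨(h h1).1, (h h1).2.2⟩

end Pool.Agent.Helper41.FX
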