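import Pool.Agent.Helper72.FX.StK

/-!
# Project FX, chapter K, part 2: the chain (complete proofs in the docstrings)

Read `Helper72/FX/KDefs.lean` (`AF`, `kil`, `kpw`, `Gd`, `ZZ`, `NP`, `Ck`, `Kn`, `pmap`, `plift`, `AF.equiv`, `AF.quot`,
`AF.of_subsingleton`, `AF.mono`) and `Helper72/FX/StK.lean` (`pel E s = C E * X - C s`, `pid I E s = I.map C ⊔ span {pel E s}`)
first.  Every module proves the stated `Prop` from the listed hypotheses (statements of `StK.lean` or of this file);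
`StDQ` etc. are implications (`hDQ hSNK`).  Never expand `kx ky kz kappa`: they are atoms for `ring`.
-/

set_option autoImplicit false

namespace Pool.Agent.Helper41.FX

open Polynomial Pool.Agent.Helper72.FX Pool.Agent.Helper72.KRF

noncomputable section

/-- ideals, with the instance path through `CommRing` (for towers `B[X][X]` the plain `Ideal B[X][X]` has no quotient) -/
abbrev Idl (A : Type) [CommRing A] : Type := Ideal A

/-- extension of an ideal to the polynomial ring -/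
def upC {B : Type} [CommRing B] (J : Idl B) : Idl B[X] := Ideal.map C J

/-! ### small tools -/

/-- **CKQ** (40 lines).  PROOF.  `Ck x (A ⧸ J) = (A ⧸ J) ⧸ (x)(A ⧸ J)`; the submodule `x (A ⧸ J)` is the image of
`J ⊔ (x)` (`Submodule.quotientQuotientEquivQuotient`, or: the surjection `A → A ⧸ J → Ck` has kernel
`{r : r ∈ J + x A}`; `LinearMap.quotKerEquivOfSurjective`, `Submodule.quotEquivOfEq`).  Second: `x • mk r = 0` iff
`x * r ∈ J`. -/
def StCKQ : Prop := ∀ (A : Type) [CommRing A] (J : Ideal A) (x : A),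
  Nonempty (Ck x (A ⧸ J) ≃ₗ[A] (A ⧸ (J ⊔ Ideal.span {x}))) ∧
  ((∀ r : A, x * r ∈ J → r ∈ J) → Subsingleton (Kn x (A ⧸ J)))

/-- **PMQ** (60 lines).  PROOF.  `plift` of `A ⧸ J → A[X] ⧸ J.map C` (`B`-structure by `C`; this map is well defined as
`C (J) ⊆ J.map C`), i.e. `∑ m_i X^i ↦ ∑ X^i C(m_i)`.  Inverse: the `A[X]`-linear map `A[X] → PolynomialModule A (A ⧸ J)`,
`p ↦ p • single 0 (mk 1)` kills `J.map C`.  Or: `PolynomialModule.equivPolynomialSelf : PolynomialModule A A ≃ A[X]` and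
exactness of `0 → J[X] → A[X] → (A/J)[X] → 0`. -/
def StPMQ : Prop := ∀ (A : Type) [CommRing A] (J : Ideal A),
  Nonempty (PolynomialModule A (A ⧸ J) ≃ₗ[A[X]] (A[X] ⧸ J.map (C : A →+* A[X])))

/-- **PMP** (theorem: `StPMQ → StCKQ → StPMP`; 40 lines).  PROOF.  Transport `CKQ` (for `A[X]`, the ideal `J.map C`, the element
`p`) along `PMQ` (an equivalence `M ≃ N` induces `Ck p M ≃ Ck p N`, `Kn p M ≃ Kn p N`). -/
def StPMP : Prop := ∀ (A : Type) [CommRing A] (J : Ideal A) (p : A[X]),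
  Nonempty (Ck p (PolynomialModule A (A ⧸ J)) ≃ₗ[A[X]]
    (A[X] ⧸ (J.map (C : A →+* A[X]) ⊔ Ideal.span {p}))) ∧
  ((∀ r : A[X], p * r ∈ J.map (C : A →+* A[X]) → r ∈ J.map (C : A →+* A[X])) →
    Subsingleton (Kn p (PolynomialModule A (A ⧸ J))))

/-- **CKP** (theorem: `StPMX → StCKP`; 60 lines).  PROOF.  `PMX` for the exact sequence
`0 → Kn s N → N -s-> N → Ck s N → 0`: `pmap (lsmul s)` is the multiplication by `C s` (check on `single`). -/
def StCKP : Prop := ∀ (A : Type) [CommRing A] (s : A) (N : Type) [AddCommGroup N] [Module A N],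
  Nonempty (Ck (C s : A[X]) (PolynomialModule A N) ≃ₗ[A[X]] PolynomialModule A (Ck s N)) ∧
  Nonempty (Kn (C s : A[X]) (PolynomialModule A N) ≃ₗ[A[X]] PolynomialModule A (Kn s N))

/-- **NZP** (30 lines).  PROOF.  Let `g ∈ M[X]`, `(C E * X - C s) g = 0`.  If `g ≠ 0` let `d` be the largest index with
`g_d ≠ 0` (`g.coeff` is a finitely supported function); `pm_smul_coeff_succ` at `d`: `E g_d = s g_{d+1} = 0`, so `g_d = 0`. -/
def StNZP : Prop := ∀ (A : Type) [CommRing A] (E s : A) (M : Type) [AddCommGroup M] [Module A M],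
  (∀ m : M, E • m = 0 → m = 0) → Subsingleton (Kn (pel E s) (PolynomialModule A M))

/-- **CKN** (sign; 20 lines).  PROOF.  `range (lsmul (-x)) = range (lsmul x)` and the same for `ker`
(`Submodule.quotEquivOfEq`, `LinearEquiv.ofEq`). -/
def StCKN : Prop := ∀ (A : Type) [CommRing A] (x : A) (M : Type) [AddCommGroup M] [Module A M],
  Nonempty (Ck (-x) M ≃ₗ[A] Ck x M) ∧ Nonempty (Kn (-x) M ≃ₗ[A] Kn x M)

/-- **TOR** (60 lines).  PROOF.  Induction on `k` (`E ^ k` kills `N`; `k = 0`: `N = 0`): `0 → E N → N → N ⧸ E N → 0` (`AF.quot` with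
`S = range (lsmul E)`), `E ^ (k - 1)` kills `E N`, `E` kills `N ⧸ E N`; both are finite (noetherian) and in the class. -/
def StTOR : Prop := ∀ (A : Type) [CommRing A] [IsNoetherianRing A] (I : Ideal A) (E : A)
  (Λ : Type) [AddCommGroup Λ] (χ : AF A (kil I) Λ),
  (∀ (N : Type) [AddCommGroup N] [Module A N], Module.Finite A N → kil I N →
    (∀ y : N, E • y = 0) → χ.f N = 0) →
  ∀ (N : Type) [AddCommGroup N] [Module A N] (k : ℕ), Module.Finite A N → kil I N →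
    (∀ y : N, E ^ k • y = 0) → χ.f N = 0

/-! ### abstract stages -/

/-- the pencil lemma with all its hypotheses discharged (= the conclusion of `StPEN`) -/
def StPENC : Prop := ∀ (B : Type) [CommRing B] [IsNoetherianRing B] (I : Ideal B) (E s : B)
  (Λ : Type) [AddCommGroup Λ] (χB : AF B (kil I) Λ)
  (χ0 : AF B[X] (kil (I.map C ⊔ Ideal.span {C E, C s})) Λ),
  (∀ (N : Type) [AddCommGroup N] [Module B N], Module.Finite B N → kil I N →
    (∀ y : N, E • y = 0) →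
    χB.f N = χ0.f (Ck (C s : B[X]) (PolynomialModule B N)) -
      χ0.f (Kn (C s : B[X]) (PolynomialModule B N))) →
  ∃ χ : AF B[X] (kil (pid I E s)) Λ,
    (∀ (N : Type) [AddCommGroup N] [Module B[X] N], Module.Finite B[X] N → kil (pid I E s) N →
      (∀ y : N, (C E : B[X]) • y = 0) → χ.f N = χ0.f N) ∧
    (∀ (M : Type) [AddCommGroup M] [Module B M], Module.Finite B M → kil I M →
      χ.f (Ck (pel E s) (PolynomialModule B M)) - χ.f (Kn (pel E s) (PolynomialModule B M)) = χB.f M)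

/-- **CAC** (condition of the pencil in stage A; theorem: `StSNK → StDQ → StPMX → StCKP → StCKQ → StPMP → StCAC`; 100 lines).
PROOF.  For `N` finite over `B` put `θ(N) = χ0.f (Ck (C s) N[X]) - χ0.f (Kn (C s) N[X])`.  On the `N` killed by `E` it is additive:
`N ↦ χ0'.f (N[X])` with `χ0' = DQ χ0` (`I = (C E)`, `x = C s`, `(C E) ⊔ (C s) = span {C E, C s}`) and `PMX` (exactness of `N ↦ N[X]`;
`C E` kills `N[X]`).  By `ZZ B (span {E}) 1` it is enough that it vanishes on `B ⧸ (E)` (modules killed by `1` are zero):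
`(B ⧸ E)[X] / s ≅ B[X] ⧸ (C E, C s)` (`PMP`), value `0`, and `(B ⧸ E)[X][s] = 0` (`CKP` and `CKQ`: `(B ⧸ E)[s] = 0`). -/
def StCAC : Prop := ∀ (B : Type) [CommRing B] [IsNoetherianRing B] (E s : B) (Λ : Type) [AddCommGroup Λ]
  (χ0 : AF B[X] (kil (Ideal.span {C E, C s})) Λ), ZZ B (Ideal.span {E}) 1 →
  χ0.f (B[X] ⧸ Ideal.span {C E, C s}) = 0 → (∀ r : B, s * r ∈ Ideal.span {E} → r ∈ Ideal.span {E}) →
  ∀ (N : Type) [AddCommGroup N] [Module B N], Module.Finite B N → (∀ y : N, E • y = 0) →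
    χ0.f (Ck (C s : B[X]) (PolynomialModule B N)) - χ0.f (Kn (C s : B[X]) (PolynomialModule B N)) = 0

/-- **STA** (stage A; theorem: `StPENC → StCAC → StPMP → StNZP → StSTA`; 80 lines).  PROOF.  `PENC` with `I = ⊥`, `χB = 0` (the zero
function), `χ0` (`AF.mono`: `⊥.map C ⊔ J = J`), condition `CAC`.  (1) is (i).  (2): (ii) for `M = B ⧸ ⊥` (or `B`): `Kn = 0` by `NZP`
(`E ≠ 0`, `B` a domain), `Ck ≅ B[X] ⧸ (⊥.map C ⊔ (pel))` by `PMP`.  (ii) itself is (3). -/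
def StSTA : Prop := ∀ (B : Type) [CommRing B] [IsNoetherianRing B] [IsDomain B] (E s : B) (Λ : Type)
  [AddCommGroup Λ] (χ0 : AF B[X] (kil (Ideal.span {C E, C s})) Λ), ZZ B (Ideal.span {E}) 1 →
  χ0.f (B[X] ⧸ Ideal.span {C E, C s}) = 0 → (∀ r : B, s * r ∈ Ideal.span {E} → r ∈ Ideal.span {E}) →
  E ≠ 0 → ∃ χ : AF B[X] (kil (pid ⊥ E s)) Λ,
    (∀ (N : Type) [AddCommGroup N] [Module B[X] N], Module.Finite B[X] N → kil (pid ⊥ E s) N →
      (∀ y : N, (C E : B[X]) • y = 0) → χ.f N = χ0.f N) ∧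
    χ.f (B[X] ⧸ pid ⊥ E s) = 0 ∧
    (∀ (M : Type) [AddCommGroup M] [Module B M], Module.Finite B M →
      χ.f (Ck (pel E s) (PolynomialModule B M)) = χ.f (Kn (pel E s) (PolynomialModule B M)))

/-- **STD** (modules on which `E` is invertible; theorem: `StNZP → StSTD`; 100 lines).  PROOF.  `N` is a `B[X]`-module killed by
`π = pel E s` and by `C D`, and `E u = 1` modulo `D`: so `C E • C u • y = y` on `N`.  Put `c = u s ∈ B`: `X • y = C c • y`
(`E X y = s y`).  So `N` is finite over `B` (`B`-structure `M := N` with `Module.compHom N C`; generators over `B[X]` generate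
over `B`, as `p • y = C (p(c)) • y`).  The map `Φ = plift id : M[X] → N` is surjective with kernel `(X - C c) M[X]`
(`∑ X^i m_i = ∑ (X^i - C c^i) m_i` if `∑ c^i m_i = 0`, and `X - C c ∣ X^i - C c^i`).  On `M[X]` (killed by `C D`):
`π = C E X - C s = C E (X - C c)` as `s y = E u s y`, and `C E` is bijective on `M[X]` (inverse `C u`), so
`range π = range (X - C c) = ker Φ` and `Ck π (M[X]) ≅ N`.  `Kn π (M[X]) = 0` by `NZP` (`E m = 0` implies `m = u E m = 0`).  So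
the hypothesis gives `χ.f N = χ.f (Ck) = χ.f (Kn) = 0`. -/
def StSTD : Prop := ∀ (B : Type) [CommRing B] [IsNoetherianRing B] (E s D u : B) (Λ : Type)
  [AddCommGroup Λ] (χ : AF B[X] (kil (pid ⊥ E s)) Λ), E * u - 1 ∈ Ideal.span {D} →
  (∀ (M : Type) [AddCommGroup M] [Module B M], Module.Finite B M →
    χ.f (Ck (pel E s) (PolynomialModule B M)) = χ.f (Kn (pel E s) (PolynomialModule B M))) →
  ∀ (N : Type) [AddCommGroup N] [Module B[X] N], Module.Finite B[X] N → kil (pid ⊥ E s) N →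
    (∀ y : N, (C D : B[X]) • y = 0) → χ.f N = 0

/-- **STB** (stage B; theorem: `StPENC → StPMP → StNZP → StSTB`; 100 lines).  PROOF.  `PENC` with `χB` and `χ0 = 0` (the zero
function); the condition is the hypothesis on `χB`.  (1) is (i).  (2): (ii) for `M = B ⧸ J` (killed by `I`): `E` is injective on
`M`, so `Kn = 0` (`NZP`), and `Ck ≅ B[X] ⧸ (J.map C ⊔ (pel E s))` (`PMP`). -/
def StSTB : Prop := ∀ (B : Type) [CommRing B] [IsNoetherianRing B] (I : Ideal B) (E s : B) (Λ : Type)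
  [AddCommGroup Λ] (χB : AF B (kil I) Λ),
  (∀ (N : Type) [AddCommGroup N] [Module B N], Module.Finite B N → kil I N →
    (∀ y : N, E • y = 0) → χB.f N = 0) →
  ∃ χ : AF B[X] (kil (pid I E s)) Λ,
    (∀ (N : Type) [AddCommGroup N] [Module B[X] N], Module.Finite B[X] N → kil (pid I E s) N →
      (∀ y : N, (C E : B[X]) • y = 0) → χ.f N = 0) ∧
    (∀ J : Ideal B, I ≤ J → (∀ r : B, E * r ∈ J → r ∈ J) →
      χ.f (B[X] ⧸ (J.map C ⊔ Ideal.span {pel E s})) = χB.f (B ⧸ J))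

/-- **ST4** (stage 4; theorem: `StPENC → StSNK → StDQ → StRES → StEXT → StCKP → StPMX → StST4`; 120 lines).  PROOF.  `EXT χ` (ideal
`(span {E1, E2, s}).map C = (span {E1}).map C ⊔ span {C E2, C s}`) is `χ0`.  `PENC` with `I = (E1)`, `E = E2`, `s`, `χB = 0`.  Condition:
`N` killed by `E1`, `E2`: `N[X]/s ≅ (N/s)[X]`, `N[X][s] ≅ (N[s])[X]` (`CKP`), values `χ.f (Ck s N)` and `χ.f (Kn s N)` (killed by
`E1, E2, s`): equal by hypothesis.  (1): `M[X]` is killed by `C E2` and by the pencil ideal: (i) and `EXT`.  (2) is (ii). -/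
def StST4 : Prop := ∀ (P : Type) [CommRing P] [IsNoetherianRing P] (E1 E2 s : P) (Λ : Type)
  [AddCommGroup Λ] (χ : AF P (kil (Ideal.span {E1, E2, s})) Λ),
  (∀ (N : Type) [AddCommGroup N] [Module P N], Module.Finite P N → kil (Ideal.span {E1, E2}) N →
    χ.f (Ck s N) = χ.f (Kn s N)) →
  ∃ χ4 : AF P[X] (kil (pid (Ideal.span {E1}) E2 s)) Λ,
    (∀ (M : Type) [AddCommGroup M] [Module P M], Module.Finite P M → kil (Ideal.span {E1, E2, s}) M →
      χ4.f (PolynomialModule P M) = χ.f M) ∧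
    (∀ (M : Type) [AddCommGroup M] [Module P M], Module.Finite P M → kil (Ideal.span {E1}) M →
      χ4.f (Ck (pel E2 s) (PolynomialModule P M)) = χ4.f (Kn (pel E2 s) (PolynomialModule P M)))

/-- **ST5** (stage 5; theorem: `StPENC → StSNK → StDQ → StRES → StEXT → StCKP → StCKN → StHOM → StPMX → StPMP → StST5`; 150 lines).
PROOF.  Let `π = pel E2 s ∈ P[X]`, `s5 = -π`.  `PENC` over `P[X]` with `I = ⊥`, `E = C E1`, `s = s5`, `χB = 0`, `χ0 = EXT χ4` restricted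
(`AF.mono`: `⊥.map C ⊔ span {C (C E1), C s5} = (pid (E1) E2 s).map C`, because `pid (E1) E2 s = span {C E1, π}`).
Condition: `N` finite over `P[X]`, killed by `C E1`: by `CKP`, `CKN` and the value of `EXT` the condition is
`χ4.f (Ck π N) = χ4.f (Kn π N)`.  `DQ` (`I = (span {E1}).map C`, `x = π`, `I ⊔ (π) = pid (E1) E2 s`) gives `ψ` additive on
`kil ((span {E1}).map C)` with this difference as value; it vanishes on `M[X]`, `M` killed by `E1`, by hypothesis; so `ψ = 0` by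
`HOM`.  (1) `N[X]` for `N` killed by `pid (E1) E2 s` is killed by `C (C E1)` and by `pel (C E1) s5`: (i) and `EXT`.  (2) (ii) of `PENC`
with `M = P[X] ⧸ ⊥` (or `P[X]`): `Kn = 0` by hypothesis (the element is a nonzerodivisor of `P[X][X]`, `PMP`),
`Ck ≅ P[X][X] ⧸ (⊥.map C ⊔ (pel))`. -/
def StST5 : Prop := ∀ (P : Type) [CommRing P] [IsNoetherianRing P] (E1 E2 s : P) (Λ : Type)
  [AddCommGroup Λ] (χ4 : AF P[X] (kil (pid (Ideal.span {E1}) E2 s)) Λ),
  (∀ (M : Type) [AddCommGroup M] [Module P M], Module.Finite P M → kil (Ideal.span {E1}) M →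
    χ4.f (Ck (pel E2 s) (PolynomialModule P M)) = χ4.f (Kn (pel E2 s) (PolynomialModule P M))) →
  (∀ r : P[X][X], pel (C E1) (-pel E2 s) * r = 0 → r = 0) →
  ∃ χ5 : AF P[X][X] (kil (pid ⊥ (C E1) (-pel E2 s))) Λ,
    (∀ (M : Type) [AddCommGroup M] [Module P[X] M], Module.Finite P[X] M →
      kil (pid (Ideal.span {E1}) E2 s) M → χ5.f (PolynomialModule P[X] M) = χ4.f M) ∧
    χ5.f (P[X][X] ⧸ pid ⊥ (C E1) (-pel E2 s)) = 0

/-- **ST6** (stage 6; theorem: `StPENC → StSNK → StDQ → StRES → StEXT → StCKP → StCKQ → StPMX → StPMQ → StPMP → StST6`; 180 lines).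
PROOF.  `RES` along `C : R → R[X]` (ideal `span {C F, X}`; every polynomial is a constant modulo `X`) gives
`χ' : AF R[X] (kil (span {C F, X}))`, `EXT` gives `χ0 : AF R[X][X] (kil ((span {C F, X}).map C))`; `PENC` over `R[X]` with `I = ⊥`, `E = X`,
`s = C F`, `χB = 0`.  Condition: `N` finite over `R[X]` killed by `X`: `CKP`, `EXT`: the two values are `χ'.f (Ck (C F) N)` and
`χ'.f (Kn (C F) N)`, i.e. `χ.f` of these modules over `R` (`Module.compHom N C`; `C F` acts as `F`).  `N ↦ χ.f (Ck F N) - χ.f (Kn F N)`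
is additive on all finite `R`-modules (`DQ`, `I = ⊥`), and its value at `R ⧸ ⊥` is `χ.f (R ⧸ F) - χ.f 0 = 0` (`CKQ`), so it is `0` by
`ZZ R ⊥ 1`.  `N` is finite over `R` because `X` kills it.  (1) (ii) of `PENC` with `M = R[X] ⧸ ⊥`: `pel X (C F)` is not a zero divisor
(`R` is a domain, leading coefficient `X ≠ 0`: `NZP`), `PMP`.  (2) `N = R[X] ⧸ (J.map C ⊔ (X))` is killed by `X` and `C F`;
`R[X][X] ⧸ (..).map C ≅ N[X]` (`PMQ`), killed by `C X`: (i) and `EXT`: value `χ'.f N = χ.f N`, and `N ≅ R ⧸ J` over `R`. -/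
def StST6 : Prop := ∀ (R : Type) [CommRing R] [IsNoetherianRing R] [IsDomain R] (F : R) (Λ : Type)
  [AddCommGroup Λ] (χ : AF R (kil (Ideal.span {F})) Λ), χ.f (R ⧸ Ideal.span {F}) = 0 → ZZ R ⊥ 1 →
  F ≠ 0 → ∃ χ6 : AF R[X][X] (kil (pid ⊥ (X : R[X]) (C F))) Λ,
    χ6.f (R[X][X] ⧸ pid ⊥ (X : R[X]) (C F)) = 0 ∧
    ∀ J : Ideal R, F ∈ J →
      χ6.f (R[X][X] ⧸ (J.map (C : R →+* R[X]) ⊔ Ideal.span {X}).map (C : R[X] →+* R[X][X])) = χ.f (R ⧸ J)

/-! ### the concrete rings -/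

/-- `ℂ[a, b, t]` -/
abbrev R3 : Type := MvPolynomial (Fin 3) ℂ
/-- `ℂ[a, b, t, σ, μ, ω_x, ω_z]` -/
abbrev B7 : Type := MvPolynomial (Fin 7) ℂ
/-- `ℂ[a, b, t, ρ, ν', σ, μ, ω_x, ω_y, ω_z]` -/
abbrev P0 : Type := MvPolynomial (Fin 10) ℂ

def v7 (i : Fin 7) : B7 := MvPolynomial.X i
def v10 (i : Fin 10) : P0 := MvPolynomial.X i

/-- `ν` in `B7` -/
def bnu : B7 := nu (v7 0) (v7 1) (v7 2)
/-- `s = ν - σ μ` -/
def bsA : B7 := bnu - v7 3 * v7 4
/-- `D = 1 + t σ (μ kx + σ ω_x)` -/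
def bD : B7 := 1 + v7 2 * v7 3 * (v7 4 * kx (v7 0) (v7 1) (v7 2) + v7 3 * v7 5)
/-- `h`, `X = ν'` -/
def bh : B7[X] := C (v7 4 * kappa (v7 0) (v7 1) (v7 2)) * X + C (v7 5 - v7 3 *
  (v7 2 * v7 4 * ky (v7 0) (v7 1) (v7 2) * v7 5 - 2 * v7 4 * kz (v7 0) (v7 1) (v7 2) * v7 6 - v7 3 * v7 6 ^ 2))

/-- `E₁` in `P0` -/
def e1 : P0 := E1 (v10 0) (v10 1) (v10 2) (v10 3) (v10 4) (v10 5) (v10 6)
/-- `E₂` in `P0` -/
def e2 : P0 := E2 (v10 0) (v10 1) (v10 2) (v10 3) (v10 4) (v10 5) (v10 6) (v10 7) (v10 8) (v10 9)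
/-- `s = σ - ρ` -/
def ss : P0 := v10 5 - v10 3
/-- `ν` in `P0` -/
def pnu : P0 := nu (v10 0) (v10 1) (v10 2)
/-- `D' = 1 + t σ (μ kx + ρ ω_x)` -/
def pD : P0 := 1 + v10 2 * v10 5 * (v10 6 * kx (v10 0) (v10 1) (v10 2) + v10 3 * v10 7)
/-- `1 + t ν kx` -/
def pA : P0 := 1 + v10 2 * pnu * kx (v10 0) (v10 1) (v10 2)

/-- `(σ, a, b)` in `B7[X]` -/
def j8 : Idl B7[X] := Ideal.span {C (v7 3), C (v7 0), C (v7 1)}
/-- `(σ, a, b, D ω_y - h)` in `B7[X][X]` -/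
def j9 : Idl B7[X][X] := upC j8 ⊔ Ideal.span {pel (C bD) bh}
/-- `(ρ, σ, a, b, E₂)` in `P0` -/
def jP : Idl P0 := Ideal.span {v10 3, v10 5, v10 0, v10 1, e2}
/-- its extension to `P0[X][X]` -/
def jPX : Idl P0[X][X] := upC (upC jP)

/-- the parity function (helper21) -/
def StPAR : Prop := ∃ π : AF R3 (kil (Ideal.span {nu (MvPolynomial.X 0) (MvPolynomial.X 1) (MvPolynomial.X 2)})) (ZMod 2),
  π.f (R3 ⧸ Ideal.span {(nu (MvPolynomial.X 0) (MvPolynomial.X 1) (MvPolynomial.X 2) : R3)}) = 0 ∧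
  π.f (R3 ⧸ Ideal.span {(MvPolynomial.X 0 : R3), MvPolynomial.X 1}) = 1

/-- **C1A** (theorem: `StSNK → StDQ → StRES → StCKQ → StPAR → StC1A`; 150 lines).  PROOF.  `RES` of `π` along the ring map
`R3 → B7[X]`, `X_i ↦ C (v7 i)`, for the ideal `J = (C ν, C σ, C μ, C ω_x, C ω_z, X)` (every element of `B7[X]` is modulo
`C σ, C μ, C ω_x, C ω_z, X` the image of an element of `R3`: substitute `0`); then `DQ` for `X`, `C ω_z`, `C ω_x`, `C μ` (ideals
`J_1 = (C ν, C σ, C μ, C ω_x, C ω_z)`, ..., `J_4 = (C ν, C σ)`).  Values: if `x` is a nonzerodivisor modulo `L` and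
`L ⊇ J_{i+1}` then `DQ` has the value `χ_i.f (A ⧸ (L ⊔ (x)))` at `A ⧸ L` (`CKQ`).  Start with `L = (C σ, C ν)` resp.
`L = (C σ, C a, C b)`; each of `C μ, C ω_x, C ω_z, X` is a nonzerodivisor modulo `L` and the previous variables (the quotients are
polynomial rings over `ℂ[a,b,t]/(ν)` resp. `ℂ[t]`: a polynomial `r` with `v r ∈ L'`, `L'` generated by elements without the
variable `v`: compare coefficients with respect to `v`, e.g. with an evaluation / `MvPolynomial` support argument or a direct sum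
decomposition).  Last: `A ⧸ (L ⊔ (μ, ω_x, ω_z, X)) ≅ R3 ⧸ (ν)` resp. `R3 ⧸ (a, b)` as `R3`-modules (`RES`, `AF.equiv`). -/
def StC1A : Prop := ∃ χ0 : AF B7[X] (kil (Ideal.span {C (v7 3), C bnu})) (ZMod 2),
  χ0.f (B7[X] ⧸ Ideal.span {C (v7 3), C bnu}) = 0 ∧
  χ0.f (B7[X] ⧸ j8) = 1

/-- **C1B** (theorem: `StSTA → StSTD → StZP → StC1A → StC1B`, `StZP` with its hypotheses; 100 lines).  PROOF.  `STA` with `B = B7`,
`E = σ = v7 3`, `s = ν - σ μ`, `χ0` from `C1A` (`span {C σ, C (ν - σ μ)} = span {C σ, C ν}`: `AF.mono` and equality of the ideals in the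
value), `ZZ B7 (span {σ}) 1` by `ZP`; `s r ∈ (σ)` implies `ν r ∈ (σ)`, `r ∈ (σ)` (`σ` is prime and does not divide `ν`:
`MvPolynomial.X_dvd...` or substitute `σ = 0`: `ν` does not contain `σ` and is not zero, `MvPolynomial` is a domain).
(3): `STD` with `D = bD`, `u = - t (μ kx + σ ω_x)`: `σ u - 1 = - D`.  (2): `B8 ⧸ (σ, a, b)` is killed by `C σ` and by `pid`
(`ν ∈ (a, b)`), so `χ = χ0` there. -/
def StC1B : Prop := ∃ χA : AF B7[X] (kil (pid ⊥ (v7 3) bsA)) (ZMod 2),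
  χA.f (B7[X] ⧸ pid ⊥ (v7 3) bsA) = 0 ∧
  χA.f (B7[X] ⧸ j8) = 1 ∧
  ∀ (N : Type) [AddCommGroup N] [Module B7[X] N], Module.Finite B7[X] N → kil (pid ⊥ (v7 3) bsA) N →
    (∀ y : N, (C bD : B7[X]) • y = 0) → χA.f N = 0

/-- **F1** (theorem: `StPRI → StF1`; 80 lines).  PROOF.  By `PRI` (`E = σ` prime in `B7`, `σ ∤ ν - σ μ`) the ideal
`(pel σ s) = pid ⊥ σ s` is prime.  `C D` is not in it: second clause of `PRI` (`C b ∈ (π)` implies `b = 0`) and `D ≠ 0` (value `1` at the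
origin). -/
def StF1 : Prop := (pid ⊥ (v7 3) bsA).IsPrime ∧ (C bD : B7[X]) ∉ pid ⊥ (v7 3) bsA

/-- **C2** (theorem: `StSTB → StF1 → StC1B → StC2`; 100 lines).  PROOF.  `STB` with `B = B7[X]`, `I = pid ⊥ σ bsA`, `E = C bD`,
`s = bh`, `χB = χA`.  (2) with `J = I` (`F1`: `C D r ∈ I` implies `r ∈ I`; note `I.map C ⊔ span {pel ..} = pid I ..`) and with
`J = span {C σ, C a, C b}` (contains `I` as `ν ∈ (a, b)`; `D - 1 ∈ (σ)`, so `C D r ∈ J` implies `r ∈ J`). -/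
def StC2 : Prop := ∃ χG : AF B7[X][X] (kil (pid (pid ⊥ (v7 3) bsA) (C bD) bh)) (ZMod 2),
  χG.f (B7[X][X] ⧸ pid (pid ⊥ (v7 3) bsA) (C bD) bh) = 0 ∧
  χG.f (B7[X][X] ⧸ j9) = 1 ∧
  ∀ (N : Type) [AddCommGroup N] [Module B7[X][X] N], Module.Finite B7[X][X] N →
    kil (pid (pid ⊥ (v7 3) bsA) (C bD) bh) N → (∀ y : N, (C (C bD) : B7[X][X]) • y = 0) → χG.f N = 0

/-- the map `B7[X][X] → P0` (`X` outer `↦ ω_y`, `X` inner `↦ ν'`) -/
def phi7 : B7 →+* P0 :=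
  (MvPolynomial.aeval (fun i => v10 (![0, 1, 2, 5, 6, 7, 9] i) : Fin 7 → P0) : B7 →ₐ[ℂ] P0).toRingHom
def phi8 : B7[X] →+* P0 := Polynomial.eval₂RingHom phi7 (v10 4)
def phi9 : B7[X][X] →+* P0 := Polynomial.eval₂RingHom phi8 (v10 8)

/-- **PHI** (80 lines).  PROOF.  `phi7 (v7 i)` is the variable, `phi7 (kx ..) = kx ..` (`kx a b t = aeval ![a,b,t] (kp 0)` commutes with
`ℂ`-algebra maps: `MvPolynomial.map_aeval`-type lemma, `MvPolynomial.algHom_ext`).  (1) `phi9 (C (pel σ bsA)) =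
σ ν' - (ν - σ μ) = - e1 + (σ - ρ) ν'`; `phi9 (pel (C bD) bh) = phi(D) ω_y - phi(h)`, `e2 = D' ω_y - h'`, and `phi(D) - D'`, `phi(h) - h'` are
multiples of `σ - ρ` (`ring` / `linear_combination` with `kx ky kz kappa` as atoms).  (2) `ρ = σ - s`, all other variables are in
the image; the set of the `a` with this property is closed under sums and products (`MvPolynomial.induction_on`).
(3) `phi9 (C (C D)) = D' + t σ ω_x (σ - ρ)`. -/
def StPHI : Prop :=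
  (pid (pid ⊥ (v7 3) bsA) (C bD) bh).map phi9 ≤ Ideal.span {e1, e2, ss} ∧
  (∀ a : P0, ∃ a' : B7[X][X], a - phi9 a' ∈ Ideal.span {e1, e2, ss}) ∧
  (phi9 (C (C bD)) - pD ∈ Ideal.span {ss}) ∧
  ((Ideal.span {e1, e2, ss}).comap phi9 = pid (pid ⊥ (v7 3) bsA) (C bD) bh) ∧
  jP.comap phi9 = j9

/-- **C12** (theorem: `StRES → StPHI → StC2 → StC12`; 100 lines).  PROOF.  `RES` along `phi9` for `I = span {e1, e2, ss}` (`PHI`).
(a), (c): `P0 ⧸ I` as a `B7[X][X]`-module is `B7[X][X] ⧸ comap` (`phi9` is surjective modulo `I`; `AF.equiv`), the same for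
`L = span {ρ, σ, a, b, e2} ⊇ I` (`e1 = ν - ρ ν' - σ μ ∈ L`, `ν ∈ (a, b)`).  (b): on a module killed by `ss`, `phi9 (C (C D))` acts as
`D'`. -/
def StC12 : Prop := ∃ χ : AF P0 (kil (Ideal.span {e1, e2, ss})) (ZMod 2),
  χ.f (P0 ⧸ Ideal.span {e1, e2, ss}) = 0 ∧
  χ.f (P0 ⧸ jP) = 1 ∧
  ∀ (N : Type) [AddCommGroup N] [Module P0 N], Module.Finite P0 N → kil (Ideal.span {e1, e2, ss}) N →
    (∀ y : N, pD • y = 0) → χ.f N = 0

/-- **PER** (20 lines).  PROOF.  `x r = f y + z` with `z ∈ I`.  Then `f y ∈ I ⊔ (x)`, so `y ∈ I ⊔ (x)`, `y = w + x y'` with `w ∈ I`, and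
`x (r - f y') ∈ I`, so `r - f y' ∈ I`. -/
def StPER : Prop := ∀ (A : Type) [CommRing A] (I : Ideal A) (x f : A), (∀ r : A, x * r ∈ I → r ∈ I) →
  (∀ r : A, f * r ∈ I ⊔ Ideal.span {x} → r ∈ I ⊔ Ideal.span {x}) →
  ∀ r : A, x * r ∈ I ⊔ Ideal.span {f} → r ∈ I ⊔ Ideal.span {f}

/-- **F2** (`s` is a nonzerodivisor modulo `(E₁, E₂)`; theorem: `StPER → StPRI → StF1 → StF2`; strong, 150 lines).  PROOF.  `PER` with
`I = (e1)`, `x = ss`, `f = e2`.  `(e1)` is prime and does not contain `ss` (`e1` is linear in `μ` with coefficient `-σ` and constant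
term `ν - ρ ν'`, coprime; `PRI` after a ring isomorphism `P0 ≅ (polynomials in the other nine variables)[X]`; a multiple of `e1`
which does not contain `μ` is zero).  `(e1, ss)`: substituting `ρ = σ` it becomes `(pel σ bsA)` in `B7[X][ω_y]`, prime by `F1`, and `e2`
becomes `- pel (C D) h`, not in it (its coefficient `C D` of `ω_y` is not in the prime ideal). -/
def StF2 : Prop := ∀ r : P0, ss * r ∈ Ideal.span {e1, e2} → r ∈ Ideal.span {e1, e2}

/-- **F3** (`σ` is a nonzerodivisor modulo `(E₁, E₂, s)`; theorem: `StPER → StPRI → StF1 → StF3`; strong, 120 lines).  PROOF.  `PER` with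
`I = (e1, ss)` (prime, see `F2`; `σ` is not in it), `x = σ`, `f = e2`: modulo `(e1, ss, σ) = (ρ, σ, ν)` the element `e2` is
`ω_y - ω_x - μ ν' κ`, monic in `ω_y`, so it is a nonzerodivisor (the quotient is a polynomial ring in `ω_y` over another ring). -/
def StF3 : Prop := ∀ r : P0, v10 5 * r ∈ Ideal.span {e1, e2, ss} → r ∈ Ideal.span {e1, e2, ss}

/-- **F4** (`σ` is a nonzerodivisor modulo `(E₁, E₂, ρ)`; theorem: `StPER → StPRI → StF4`; strong, 120 lines).  PROOF.  `PER` with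
`I = (e1, ρ) = (ρ, ν - σ μ)` (prime by `PRI`; `σ` is not in it), `x = σ`, `f = e2`: modulo `(ρ, σ, ν)` again `e2 = ω_y - ω_x - μ ν' κ`. -/
def StF4 : Prop := ∀ r : P0, v10 5 * r ∈ Ideal.span {e1, e2, v10 3} → r ∈ Ideal.span {e1, e2, v10 3}

/-- **ZA** (theorem: `StTRF → StZP → StZA`, `StZP` with its hypotheses; strong, 180 lines).  PROOF.  `TRF` for the ring map
`φ : MvPolynomial (Fin 7) ℂ → P0`, variables `↦ a, b, t, ν', σ, ω_x, ω_z`, `IB = ⊥`, `IC = (e1, e2, ρ)`, `x` = the polynomial with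
`φ x = σ (1 + t ν kx)`; `ZZ _ ⊥ x` follows from `ZZ _ ⊥ 1` (fewer hypotheses on `χ`).
H1: modulo `IC`: `ρ = 0`, `σ μ = ν`, `(1 + t ν kx) ω_y = ω_x (1 - t ν ky) + μ ν' κ + 2 ν kz ω_z` (from `e2` with `ρ = 0`, `σ μ = ν`), so
`σ (1 + t ν kx) ω_y` is in the image; closed under sums and products (`MvPolynomial.induction_on`).
H2: the ring map `P0 → FractionRing (MvPolynomial (Fin 7) ℂ)`, `ρ ↦ 0`, `μ ↦ ν/σ`,
`ω_y ↦ (ω_x (1 - t ν ky) + (ν/σ) ν' κ + 2 ν kz ω_z)/(1 + t ν kx)`, other variables to themselves, kills `e1, e2, ρ` and is the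
inclusion on `φ`; so `φ b ∈ IC` implies `b = 0` (`1 + t ν kx ≠ 0`: value `1` at the origin). -/
def StZA : Prop := ZZ P0 (Ideal.span {e1, e2, v10 3}) (v10 5 * pA)

/-- **ZB** (theorem: `StTRF → StZP → StZB`, `StZP` with its hypotheses; strong, 180 lines).  PROOF.  `TRF` for
`φ : MvPolynomial (Fin 8) ℂ → P0`, variables `↦ a, b, t, ρ, σ, μ, ω_x, ω_z`, `IB = ⊥`, `IC = (e1, e2)`, `φ x = ρ D'`.
H1: `ρ ν' = ν - σ μ`, `D' ω_y = h'`, `h' = μ ν' κ + ω_x - σ (t μ ky ω_x - 2 μ kz ω_z - ρ ω_z^2)`, modulo `IC` (`e2 = D' ω_y - h'`); so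
`ρ D' ω_y` is in the image.  H2: `P0 → FractionRing _`, `ν' ↦ (ν - σ μ)/ρ`, `ω_y ↦ h'/D'` (`D' ≠ 0`: value `1` at the origin). -/
def StZB : Prop := ZZ P0 (Ideal.span {e1, e2}) (v10 3 * pD)

/-- **C3A** (`θ` vanishes on the modules killed by `ρ`; theorem: `StSNK → StDQ → StCKQ → StF3 → StF4 → StZA → StC3A`; 150 lines).
PROOF.  `θ = DQ χ` (`I = (e1, e2)`, `x = ss`): `θ N = χ (N/s) - χ (N[s])`, additive on `kil (e1, e2)`; restrict it to
`kil (e1, e2, ρ)`.  If `D' N = 0` then `N/s`, `N[s]` are killed by `D'`: `θ N = 0`.  On `N` with `ρ N = 0`, `ss` acts as `σ`; if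
`σ N = 0` too, `N/s = N = N[s]` (`AF.equiv`), `θ N = 0`.  If `σ (1 + t ν kx) N = 0`: `0 → σ N → N → N ⧸ σ N → 0`; on modules killed by
`ρ` and `e1`: `D' = 1 + t σ μ kx = 1 + t ν kx` kills `σ N`; so `θ N = 0`.  `θ (P0 ⧸ (e1, e2, ρ)) = χ (P0 ⧸ (e1, e2, ρ, s)) - χ (0)`
by `CKQ`, `F4` (`s r ∈ (e1, e2, ρ)` iff `σ r ∈ (e1, e2, ρ)`), and `(e1, e2, ρ, s) = (e1, e2, s, σ)`,
`0 → P0 ⧸ (e1, e2, s) -σ-> P0 ⧸ (e1, e2, s) → P0 ⧸ (e1, e2, s, σ) → 0` by `F3`: `χ = 0`.  `ZA` finishes. -/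
def StC3A : Prop := ∀ χ : AF P0 (kil (Ideal.span {e1, e2, ss})) (ZMod 2),
  (∀ (N : Type) [AddCommGroup N] [Module P0 N], Module.Finite P0 N → kil (Ideal.span {e1, e2, ss}) N →
    (∀ y : N, pD • y = 0) → χ.f N = 0) →
  ∀ (N : Type) [AddCommGroup N] [Module P0 N], Module.Finite P0 N → kil (Ideal.span {e1, e2}) N →
    (∀ y : N, v10 3 • y = 0) → χ.f (Ck ss N) = χ.f (Kn ss N)

/-- **C3** (`θ = 0`; theorem: `StSNK → StDQ → StCKQ → StF2 → StZB → StC3A → StC3`; 100 lines).  PROOF.  `θ` as in `C3A`.  `N` killed by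
`ρ D'`: `0 → ρ N → N → N ⧸ ρ N → 0`; `ρ N` is killed by `D'` (`θ = 0`), `N ⧸ ρ N` by `ρ` (`C3A`).  `θ (P0 ⧸ (e1, e2)) =
χ (P0 ⧸ (e1, e2, s)) - χ (0) = 0` by `CKQ` and `F2`.  `ZB`. -/
def StC3 : Prop := ∀ χ : AF P0 (kil (Ideal.span {e1, e2, ss})) (ZMod 2),
  χ.f (P0 ⧸ Ideal.span {e1, e2, ss}) = 0 →
  (∀ (N : Type) [AddCommGroup N] [Module P0 N], Module.Finite P0 N → kil (Ideal.span {e1, e2, ss}) N →
    (∀ y : N, pD • y = 0) → χ.f N = 0) →
  ∀ (N : Type) [AddCommGroup N] [Module P0 N], Module.Finite P0 N → kil (Ideal.span {e1, e2}) N →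
    χ.f (Ck ss N) = χ.f (Kn ss N)

/-- **C5** (theorem: `StST4 → StST5 → StPMQ → StC3 → StC12 → StC5`; 120 lines).  PROOF.  `ST4` (`P = P0`, `E1 = e1`, `E2 = e2`,
`s = ss`, condition `C3`), `ST5` (`P0[X][X]` is a domain, the element is not zero: its coefficient of `X` is `C e1 ≠ 0`).  Let
`L = span {ρ, σ, a, b, e2}`: `χ.f (P0 ⧸ L) = 1`, `P0[X][X] ⧸ (L.map C).map C ≅ ((P0 ⧸ L)[X])[X]` (`PMQ` twice), value `1`. -/
def StC5 : Prop := ∃ χ5 : AF P0[X][X] (kil (pid ⊥ (C e1) (-pel e2 ss))) (ZMod 2),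
  χ5.f (P0[X][X] ⧸ pid ⊥ (C e1) (-pel e2 ss)) = 0 ∧
  χ5.f (P0[X][X] ⧸ jPX) = 1

/-- **E12** (100 lines).  PROOF.  `P0[X][X] ≃ MvPolynomial (Fin 12) ℂ` as `ℂ`-algebras: `C (C (v10 i)) ↦ X i.castAdd`,
`X` outer `↦ X 10` (`w₁`), `C X ↦ X 11` (`w₂`) (two `ℂ`-algebra maps, inverse on generators; `e1`, `e2` go to `E1 ..`, `E2 ..`
because `kx ..` commute with algebra maps).  `pel (C e1) (-pel e2 ss) = C (C e1) X + C (C e2 X - C ss) ↦ FP`. -/
def StE12 : Prop := ∃ e : P0[X][X] ≃+* MvPolynomial (Fin 12) ℂ, e (pel (C e1) (-pel e2 ss)) = FP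

/-- **C5M** (theorem: `StRES → StE12 → StC5 → StC5M`; 80 lines).  PROOF.  `RES` along `e : P0[X][X] → MvPolynomial (Fin 12) ℂ`
for the ideal `span {FP}` (the image of `pid ⊥ .. = span {pel ..}`); `MvPolynomial (Fin 12) ℂ ⧸ J.map e` is `P0[X][X] ⧸ J` over
`P0[X][X]`. -/
def StC5M : Prop := ∃ χ : AF (MvPolynomial (Fin 12) ℂ) (kil (Ideal.span {FP})) (ZMod 2),
  χ.f (MvPolynomial (Fin 12) ℂ ⧸ Ideal.span {FP}) = 0 ∧
  ∃ J : Ideal (MvPolynomial (Fin 12) ℂ), FP ∈ J ∧ χ.f (MvPolynomial (Fin 12) ℂ ⧸ J) = 1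

/-- **E14** (100 lines).  PROOF.  `(MvPolynomial (Fin 12) ℂ)[X][X] ≃ MvPolynomial (Fin 2 ⊕ Fin 12) ℂ`: `C (C (X j)) ↦ X (inr j)`, `C X ↦
X (inl 0)` (`U`), `X ↦ X (inl 1)` (`V`) (e.g. `MvPolynomial.sumAlgEquiv`, `finSuccEquiv`, or two algebra maps inverse on
generators).  `pel X (C F) = C X * X - C (C F) ↦ U V - rename inr F`. -/
def StE14 : Prop := ∀ F : MvPolynomial (Fin 12) ℂ,
  ∃ e : (MvPolynomial (Fin 12) ℂ)[X][X] ≃+* MvPolynomial (Fin 2 ⊕ Fin 12) ℂ,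
    e (pel (X : (MvPolynomial (Fin 12) ℂ)[X]) (C F)) = UVP F

/-- **C7** (theorem: `StRES → StZP → StST6 → StE14 → StC5M → StC7`, `StZP` with its hypotheses; 120 lines).  PROOF.  `ST6` with
`R = MvPolynomial (Fin 12) ℂ`, `F = FP` (`FP ≠ 0`: the coefficient of the variable `ρ` is `1`, e.g. the values at two points
differ), `ZZ R ⊥ 1` by `ZP`.  `RES` along `R[X][X] → MvPolynomial (Fin 2 ⊕ Fin 12) ℂ → QR (UVP FP)` (surjective, kernel
`span {pel X (C FP)} = pid ⊥ ..`), `I = ⊥`: the value at `QR` is the value at `R[X][X] ⧸ pid ..`, and the value at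
`QR ⧸ (image of (J.map C ⊔ (X)).map C)` is `1 ≠ 0` in `ZMod 2`. -/
def StC7 : Prop := NP (QR (UVP FP))

/-- **TK** (theorem: `StSNK → StDQ → StRES → StEXT → StPMX → StNPX → StNPI → StNPZ → StZP → StC7 → TgtK`, `StZP` with its
hypotheses; 60 lines).  PROOF.  `NPI` (2): `NP (MvPolynomial (Fin 2 ⊕ Fin 12) (QR (UVP FP)))`; if it were isomorphic to
`MvPolynomial (Fin k) ℂ`, this ring would be `NP` by `NPI` (1), but `ZZ (MvPolynomial (Fin k) ℂ) ⊥ 1` (`ZP`) and `NPZ`. -/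
def StTK : Prop := TgtK

end

end Pool.Agent.Helper41.FX
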